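import Pool.Agent.Helper57.SJ.Stmts

/-! Row TLE of the sheet SJ: the tail as a sum over a set of primes. -/

set_option autoImplicit false

namespace Pool.Agent.Helper24.SJ

open Pool.Agent.Helper57.QZ (Pr lin)
open Pool.Agent.Helper57.SI (tl)
open Pool.Agent.Helper57.SJ

theorem st_TLE : ST_TLE := by
  intro j y x t
  have h1 : tl j y x (lin y t) = ∑ p : Pr y, (fun p : ℕ => if x < p then
      ((Real.log (p : ℝ) ^ j / (p : ℝ) : ℝ) : ℂ) *
        Complex.exp (-((t * Real.log p : ℝ) * Complex.I)) else 0) (p : ℕ) := rfl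
  rw [h1, Finset.sum_coe_sort (Nat.primesBelow (y + 1)) (fun p : ℕ => if x < p then
      ((Real.log (p : ℝ) ^ j / (p : ℝ) : ℝ) : ℂ) *
        Complex.exp (-((t * Real.log p : ℝ) * Complex.I)) else 0), ← Finset.sum_filter]
  refine Finset.sum_congr ?_ fun _ _ => rfl
  ext p
  simp only [PP, Finset.mem_filter, Nat.mem_primesBelow, Finset.mem_Icc]
  constructor
  · rintro ⟨⟨h2, h3⟩, h4⟩
    exact ⟨⟨by omega, by omega⟩, h3⟩
  · rintro ⟨⟨h2, h3⟩, h4⟩
    exact ⟨⟨by omega, h4⟩, by omega⟩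

end Pool.Agent.Helper24.SJ
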